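import Mathlib

set_option autoImplicit false

namespace Pool.Agent.Results.MP_f83094_an.Counter

open scoped TensorProduct
open UniversalEnvelopingAlgebra

attribute [local instance 100] LieRing.ofAssociativeRing

section General

variable {L : Type} [LieRing L] [LieAlgebra ℂ L]

abbrev U (L : Type) [LieRing L] [LieAlgebra ℂ L] : Type := UniversalEnvelopingAlgebra ℂ L

noncomputable def j : L →ₗ[ℂ] U L := (ι ℂ : L →ₗ⁅ℂ⁆ U L).toLinearMap

theorem j_lie (x y : L) : j ⁅x, y⁆ = j x * j y - j y * j x := by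
  have := (ι ℂ : L →ₗ⁅ℂ⁆ U L).map_lie x y
  rw [LieRing.of_associative_ring_bracket] at this
  exact this

noncomputable def mkHom {A : Type} [Ring A] [Algebra ℂ A] (f : L →ₗ[ℂ] A)
    (hf : ∀ x y, f ⁅x, y⁆ = f x * f y - f y * f x) : U L →ₐ[ℂ] A :=
  lift ℂ { f with map_lie' := fun {x y} => hf x y }

theorem mkHom_j {A : Type} [Ring A] [Algebra ℂ A] (f : L →ₗ[ℂ] A)
    (hf : ∀ x y, f ⁅x, y⁆ = f x * f y - f y * f x) (x : L) : mkHom f hf (j x) = f x :=
  lift_ι_apply ℂ _ x

theorem uext {A : Type} [Ring A] [Algebra ℂ A] (g₁ g₂ : U L →ₐ[ℂ] A)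
    (h : ∀ x, g₁ (j x) = g₂ (j x)) : g₁ = g₂ := by
  apply UniversalEnvelopingAlgebra.hom_ext
  ext x
  exact h x

theorem uind (P : Subalgebra ℂ (U L)) (h : ∀ x, j x ∈ P) (a : U L) : a ∈ P := by
  let f : L →ₗ[ℂ] P := LinearMap.codRestrict P.toSubmodule j h
  have hf : ∀ x y, f ⁅x, y⁆ = f x * f y - f y * f x := fun x y => Subtype.ext (j_lie x y)
  have h1 : P.val.comp (mkHom f hf) = AlgHom.id ℂ (U L) := by
    apply uext
    intro x
    rw [AlgHom.comp_apply, mkHom_j]
    rfl
  have h2 : P.val (mkHom f hf a) = a := by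
    have := congrArg (fun g : U L →ₐ[ℂ] U L => g a) h1
    exact this
  rw [← h2]
  exact (mkHom f hf a).2

noncomputable def cmL : L →ₗ[ℂ] U L ⊗[ℂ] U L :=
  ((TensorProduct.mk ℂ (U L) (U L)).flip 1) ∘ₗ j + (TensorProduct.mk ℂ (U L) (U L) 1) ∘ₗ j

theorem cmL_apply (x : L) : cmL x = j x ⊗ₜ[ℂ] (1 : U L) + (1 : U L) ⊗ₜ[ℂ] j x := rfl

noncomputable def cm : U L →ₐ[ℂ] U L ⊗[ℂ] U L :=
  mkHom cmL (fun x y => by
    simp only [cmL_apply, j_lie, add_mul, mul_add, Algebra.TensorProduct.tmul_mul_tmul, mul_one,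
      one_mul, TensorProduct.sub_tmul, TensorProduct.tmul_sub]
    abel)

theorem cm_j (x : L) : cm (j x) = j x ⊗ₜ[ℂ] (1 : U L) + (1 : U L) ⊗ₜ[ℂ] j x := mkHom_j _ _ x

noncomputable def cu : U L →ₐ[ℂ] ℂ := mkHom (0 : L →ₗ[ℂ] ℂ) (fun x y => by simp)

theorem cu_j (x : L) : cu (j x) = 0 := mkHom_j _ _ x

noncomputable def anL : L →ₗ[ℂ] (U L)ᵐᵒᵖ :=
  -((MulOpposite.opLinearEquiv ℂ : U L ≃ₗ[ℂ] (U L)ᵐᵒᵖ).toLinearMap ∘ₗ j)

theorem anL_apply (x : L) : anL x = - MulOpposite.op (j x) := rfl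

noncomputable def anH : U L →ₐ[ℂ] (U L)ᵐᵒᵖ :=
  mkHom anL (fun x y => by
    simp only [anL_apply, j_lie, neg_mul_neg, MulOpposite.op_sub, MulOpposite.op_mul]
    abel)

noncomputable def an : U L →ₗ[ℂ] U L :=
  (MulOpposite.opLinearEquiv ℂ : U L ≃ₗ[ℂ] (U L)ᵐᵒᵖ).symm.toLinearMap ∘ₗ anH.toLinearMap

theorem an_apply (a : U L) : an a = MulOpposite.unop (anH a) := rfl

theorem an_mul (a b : U L) : an (a * b) = an b * an a := by
  simp only [an_apply, map_mul, MulOpposite.unop_mul]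

theorem an_one : an (1 : U L) = 1 := by
  simp only [an_apply, map_one, MulOpposite.unop_one]

theorem an_j (x : L) : an (j x) = - j x := by
  rw [an_apply, anH, mkHom_j, anL_apply]
  rfl

@[reducible] noncomputable def bi : Bialgebra ℂ (U L) :=
  Bialgebra.ofAlgHom cm cu
    (by
      apply uext
      intro x
      simp [cm_j, Algebra.TensorProduct.one_def, TensorProduct.add_tmul, TensorProduct.tmul_add,
        add_assoc])
    (by
      apply uext
      intro x
      simp [cm_j, cu_j])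
    (by
      apply uext
      intro x
      simp [cm_j, cu_j])

theorem left_key (b : U L) : ∀ t : U L ⊗[ℂ] U L,
    LinearMap.mul' ℂ (U L) (an.rTensor (U L) (cm b * t)) =
      cu b • LinearMap.mul' ℂ (U L) (an.rTensor (U L) t) := by
  let P : Subalgebra ℂ (U L) :=
    { carrier := {b | ∀ t : U L ⊗[ℂ] U L,
        LinearMap.mul' ℂ (U L) (an.rTensor (U L) (cm b * t)) =
          cu b • LinearMap.mul' ℂ (U L) (an.rTensor (U L) t)}
      mul_mem' := fun {a b} ha hb t => by
        rw [map_mul cm, mul_assoc, ha, hb, map_mul cu, mul_smul]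
      add_mem' := fun {a b} ha hb t => by
        rw [map_add, add_mul, map_add, map_add, ha, hb, map_add, add_smul]
      algebraMap_mem' := fun r t => by
        rw [AlgHom.commutes, AlgHom.commutes, ← Algebra.smul_def, map_smul, map_smul]
        rfl }
  refine uind P (fun x t => ?_) b
  rw [cm_j, cu_j, zero_smul]
  induction t using TensorProduct.induction_on with
  | zero => simp
  | tmul u v => simp [add_mul, an_mul, an_j, mul_assoc]
  | add s t hs ht => rw [mul_add, map_add, map_add, hs, ht, add_zero]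

theorem right_key (b : U L) : ∀ t : U L ⊗[ℂ] U L,
    LinearMap.mul' ℂ (U L) (an.lTensor (U L) (t * cm b)) =
      cu b • LinearMap.mul' ℂ (U L) (an.lTensor (U L) t) := by
  let P : Subalgebra ℂ (U L) :=
    { carrier := {b | ∀ t : U L ⊗[ℂ] U L,
        LinearMap.mul' ℂ (U L) (an.lTensor (U L) (t * cm b)) =
          cu b • LinearMap.mul' ℂ (U L) (an.lTensor (U L) t)}
      mul_mem' := fun {a b} ha hb t => by
        rw [map_mul cm, ← mul_assoc, hb, ha, map_mul cu, mul_comm (cu a), mul_smul]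
      add_mem' := fun {a b} ha hb t => by
        rw [map_add, mul_add, map_add, map_add, ha, hb, map_add, add_smul]
      algebraMap_mem' := fun r t => by
        rw [AlgHom.commutes, AlgHom.commutes, ← Algebra.commutes, ← Algebra.smul_def, map_smul,
          map_smul]
        rfl }
  refine uind P (fun x t => ?_) b
  rw [cm_j, cu_j, zero_smul]
  induction t using TensorProduct.induction_on with
  | zero => simp
  | tmul u v => simp [mul_add, an_mul, an_j, mul_assoc]
  | add s t hs ht => rw [add_mul, map_add, map_add, hs, ht, add_zero]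

@[reducible] noncomputable def hopf : HopfAlgebra ℂ (U L) :=
  { bi with
    antipode := an
    mul_antipode_rTensor_comul := by
      apply LinearMap.ext
      intro b
      have := left_key b 1
      rw [mul_one, Algebra.TensorProduct.one_def, LinearMap.rTensor_tmul, an_one,
        LinearMap.mul'_apply, mul_one, ← Algebra.algebraMap_eq_smul_one] at this
      exact this
    mul_antipode_lTensor_comul := by
      apply LinearMap.ext
      intro b
      have := right_key b 1
      rw [one_mul, Algebra.TensorProduct.one_def, LinearMap.lTensor_tmul, an_one,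
        LinearMap.mul'_apply, mul_one, ← Algebra.algebraMap_eq_smul_one] at this
      exact this }

end General

abbrev E : Type := Module.End ℂ (ℤ → ℂ)

noncomputable def e (n : ℤ) : E where
  toFun f := fun k => (k : ℂ) * f (k + n)
  map_add' f g := by funext k; simp [mul_add]
  map_smul' c f := by funext k; simp; ring

theorem e_lie (m n : ℤ) : ⁅e m, e n⁆ = ((m - n : ℤ) : ℂ) • e (m + n) := by
  rw [LieRing.of_associative_ring_bracket]
  apply LinearMap.ext
  intro f
  funext k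
  simp only [e, LinearMap.sub_apply, Module.End.mul_apply, LinearMap.coe_mk, AddHom.coe_mk,
    Pi.sub_apply, LinearMap.smul_apply, Pi.smul_apply, smul_eq_mul]
  rw [show k + n + m = k + (m + n) by ring, show k + m + n = k + (m + n) by ring]
  push_cast
  ring

def gens : Set E := {e (-1), e 0, e 1, e 2}

noncomputable abbrev W : LieSubalgebra ℂ E := LieSubalgebra.lieSpan ℂ E gens

theorem gens_mem (x : E) (hx : x ∈ gens) : x ∈ W := LieSubalgebra.subset_lieSpan hx

theorem e_mem2 (n : ℕ) : e ((n : ℤ) + 2) ∈ W := by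
  induction n with
  | zero => exact gens_mem _ (by simp [gens])
  | succ n ih =>
    have h1 : ⁅e 1, e ((n : ℤ) + 2)⁆ ∈ W := W.lie_mem (gens_mem _ (by simp [gens])) ih
    rw [e_lie] at h1
    have hne : (((1 - ((n : ℤ) + 2) : ℤ)) : ℂ) ≠ 0 := by
      rw [Int.cast_ne_zero]; omega
    have h2 := W.smul_mem (((1 - ((n : ℤ) + 2) : ℤ) : ℂ)⁻¹) h1
    rw [smul_smul, inv_mul_cancel₀ hne, one_smul] at h2
    rw [show ((n + 1 : ℕ) : ℤ) + 2 = 1 + ((n : ℤ) + 2) by push_cast; ring]
    exact h2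

theorem e_mem (n : ℕ) : e (n : ℤ) ∈ W := by
  match n with
  | 0 => exact gens_mem _ (by simp [gens])
  | 1 => exact gens_mem _ (by simp [gens])
  | n + 2 =>
    have := e_mem2 n
    rw [show ((n + 2 : ℕ) : ℤ) = (n : ℤ) + 2 by push_cast; ring]
    exact this

noncomputable def w (n : ℕ) : W := ⟨e n, e_mem n⟩

noncomputable def d : W := ⟨e (-1), gens_mem _ (by simp [gens])⟩

theorem lie0 (n : ℕ) : ⁅w 0, w n⁆ = (-(n : ℂ)) • w n := by
  apply Subtype.ext
  change ⁅e ((0 : ℕ) : ℤ), e (n : ℤ)⁆ = (-(n : ℂ)) • e (n : ℤ)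
  rw [e_lie]
  simp

theorem lied (n : ℕ) : ⁅d, w (n + 1)⁆ = (-((n : ℂ) + 2)) • w n := by
  apply Subtype.ext
  change ⁅e (-1), e ((n + 1 : ℕ) : ℤ)⁆ = (-((n : ℂ) + 2)) • e (n : ℤ)
  rw [e_lie, show (-1 : ℤ) + ((n + 1 : ℕ) : ℤ) = (n : ℤ) by push_cast; ring]
  congr 1
  push_cast
  ring

theorem ft : Algebra.FiniteType ℂ (U W) := by
  classical
  refine ⟨⟨{j d, j (w 0), j (w 1), j (w 2)}, ?_⟩⟩
  rw [eq_top_iff]
  intro a _
  refine uind _ (fun x => ?_) a
  obtain ⟨x, hx⟩ := x
  induction hx using LieSubalgebra.lieSpan_induction with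
  | mem y hy =>
    apply Algebra.subset_adjoin
    simp only [gens, Set.mem_insert_iff, Set.mem_singleton_iff] at hy
    simp only [Finset.coe_insert, Finset.coe_singleton, Set.mem_insert_iff, Set.mem_singleton_iff]
    rcases hy with rfl | rfl | rfl | rfl
    · left; rfl
    · right; left; rfl
    · right; right; left; rfl
    · right; right; right; rfl
  | zero =>
    have : j (⟨0, W.zero_mem⟩ : W) = 0 := map_zero j
    exact this ▸ Subalgebra.zero_mem _
  | add x y hx hy ihx ihy =>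
    have : j (⟨x + y, W.add_mem hx hy⟩ : W) = j (⟨x, hx⟩ : W) + j (⟨y, hy⟩ : W) :=
      map_add j (⟨x, hx⟩ : W) ⟨y, hy⟩
    exact this ▸ Subalgebra.add_mem _ ihx ihy
  | smul c x hx ihx =>
    have : j (⟨c • x, W.smul_mem c hx⟩ : W) = c • j (⟨x, hx⟩ : W) :=
      map_smul j c (⟨x, hx⟩ : W)
    exact this ▸ Subalgebra.smul_mem _ ihx c
  | lie x y hx hy ihx ihy =>
    have : j (⟨⁅x, y⁆, W.lie_mem hx hy⟩ : W) =
        j (⟨x, hx⟩ : W) * j (⟨y, hy⟩ : W) - j (⟨y, hy⟩ : W) * j (⟨x, hx⟩ : W) :=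
      j_lie (⟨x, hx⟩ : W) ⟨y, hy⟩
    exact this ▸ Subalgebra.sub_mem _ (Subalgebra.mul_mem _ ihx ihy) (Subalgebra.mul_mem _ ihy ihx)

theorem w0_ne : j (w 0) ≠ 0 := by
  intro h
  let f : W →ₗ[ℂ] E := W.toSubmodule.subtype
  have hf : ∀ x y : W, f ⁅x, y⁆ = f x * f y - f y * f x := fun x y => rfl
  have h1 := mkHom_j f hf (w 0)
  rw [h, map_zero] at h1
  have h2 : (0 : E) (fun _ => 1) 1 = e 0 (fun _ => 1) 1 := by
    rw [h1]; rfl
  simp [e] at h2

theorem killed (p : Seminorm ℂ (U W)) (hp : ∀ a b, p (a * b) ≤ p a * p b) : p (j (w 0)) = 0 := by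
  have hb : ∀ x y : W, p (j ⁅x, y⁆) ≤ 2 * p (j x) * p (j y) := by
    intro x y
    rw [j_lie]
    have h1 := map_sub_le_add p (j x * j y) (j y * j x)
    have h2 := hp (j x) (j y)
    have h3 := hp (j y) (j x)
    nlinarith
  have hdown : ∀ n : ℕ, p (j (w (n + 1))) = 0 → p (j (w n)) = 0 := by
    intro n h
    have h1 := hb d (w (n + 1))
    rw [h, mul_zero, lied, map_smul, map_smul_eq_mul, norm_neg] at h1
    have h2 : ‖(n : ℂ) + 2‖ = (n : ℝ) + 2 := by
      have : ((n : ℂ) + 2) = ((n + 2 : ℕ) : ℂ) := by push_cast; ring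
      rw [this, Complex.norm_natCast]; push_cast; ring
    rw [h2] at h1
    have h3 := apply_nonneg p (j (w n))
    have h4 : (0 : ℝ) ≤ n := Nat.cast_nonneg n
    nlinarith
  have hall : ∀ n : ℕ, p (j (w n)) = 0 → p (j (w 0)) = 0 := by
    intro n
    induction n with
    | zero => exact id
    | succ n ih => exact fun h => ih (hdown n h)
  obtain ⟨N, hN⟩ := exists_nat_gt (2 * p (j (w 0)))
  apply hall N
  have h1 := hb (w 0) (w N)
  rw [lie0, map_smul, map_smul_eq_mul, norm_neg, Complex.norm_natCast] at h1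
  have h3 := apply_nonneg p (j (w N))
  nlinarith

theorem result : ∃ (H : Type) (_ : Ring H) (_ : HopfAlgebra ℂ H),
    Algebra.FiniteType ℂ H ∧ ∃ h : H, h ≠ 0 ∧
      ∀ p : Seminorm ℂ H, (∀ a b : H, p (a * b) ≤ p a * p b) → p h = 0 :=
  ⟨U W, inferInstance, hopf, ft, j (w 0), w0_ne, killed⟩

end Pool.Agent.Results.MP_f83094_an.Counter
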